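import Pool.Agent.V1127.Co.StepC

/-!
# Smooth homeomorphisms of corank at most one: removal of the singular set
-/

set_option autoImplicit false

open Set Filter Topology Metric Function
open scoped Manifold ContDiff

noncomputable section

namespace Pool.Agent.V1127.Co

open Pool.Agent.Y522 Pool.Agent.Y522.NA Pool.Agent.Y170.NA

variable {m : ℕ} {X Y : Type} [TopologicalSpace X] [T2Space X] [ChartedSpace (E (m + 1)) X]
  [IsManifold (𝓡 (m + 1)) ∞ X] [TopologicalSpace Y] [ChartedSpace (E (m + 1)) Y]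
  [IsManifold (𝓡 (m + 1)) ∞ Y]

omit [T2Space X] [IsManifold (𝓡 (m + 1)) ∞ X] in
theorem coord_of_rank (f : X → Y) (hf : ContMDiff (𝓡 (m + 1)) (𝓡 (m + 1)) ∞ f)
    (x : X) (hx : m ≤ Module.finrank ℝ
      (LinearMap.range (mfderiv (𝓡 (m + 1)) (𝓡 (m + 1)) f x).toLinearMap))
    (U : TopologicalSpace.Opens X) (hxU : x ∈ U)
    (hU : ∀ u : U, f u ∈ (chartAt (E (m + 1)) (f x)).source) :
    Coord m (fun u : U => chartAt (E (m + 1)) (f x) (f u)) ⟨x, hxU⟩ := by
  set e := chartAt (E (m + 1)) (f x) with he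
  have heLD : ∀ y ∈ e.source, LD (m + 1) (e : Y → E (m + 1)) y := fun y hy =>
    Pool.Agent.Y66.CM.LD_chart _ y hy
  have hsm : ContMDiff (𝓡 (m + 1)) (𝓡 (m + 1)) ∞ (fun u : U => e (f u)) := fun u =>
    (heLD _ (hU u)).contMDiffAt.comp u (hf.contMDiffAt.comp u contMDiff_subtype_val.contMDiffAt)
  obtain ⟨P0, hP0⟩ := exists_proj (m := m)
    (LinearMap.range (mfderiv (𝓡 (m + 1)) (𝓡 (m + 1)) f x).toLinearMap) hx
  have heq := (heLD _ (hU ⟨x, hxU⟩)).mfderivToContinuousLinearEquiv_coe (by simp)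
  set A := (heLD _ (hU ⟨x, hxU⟩)).mfderivToContinuousLinearEquiv (by simp) with hA
  have hveq := (LD_val (n := m + 1) U ⟨x, hxU⟩).mfderivToContinuousLinearEquiv_coe (by simp)
  set V := (LD_val (n := m + 1) U ⟨x, hxU⟩).mfderivToContinuousLinearEquiv (by simp) with hV
  let A' : E (m + 1) ≃L[ℝ] E (m + 1) := A
  let P : E (m + 1) →L[ℝ] E m := P0.comp (A'.symm : E (m + 1) →L[ℝ] E (m + 1))
  refine ⟨P, Eventually.of_forall fun y => ?_, ?_⟩
  · exact P.contMDiff.contMDiffAt.comp y hsm.contMDiffAt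
  · have h1 : mfderiv (𝓡 (m + 1)) (𝓡 m) (fun u : U => P (e (f u))) ⟨x, hxU⟩ =
        P.comp (mfderiv (𝓡 (m + 1)) (𝓡 (m + 1)) (fun u : U => e (f u)) ⟨x, hxU⟩) := by
      have h2 := mfderiv_comp (I := 𝓡 (m + 1)) (I' := 𝓡 (m + 1)) (I'' := 𝓡 m) (⟨x, hxU⟩ : U)
        (g := (P : E (m + 1) → E m)) (f := fun u : U => e (f u))
        (P.contMDiff.mdifferentiableAt (by simp : (∞ : WithTop ℕ∞) ≠ 0))
        (hsm.mdifferentiableAt (by simp))
      rw [mfderiv_eq_fderiv, P.fderiv] at h2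
      exact h2
    have h3 : mfderiv (𝓡 (m + 1)) (𝓡 (m + 1)) (fun u : U => e (f u)) ⟨x, hxU⟩ =
        (mfderiv (𝓡 (m + 1)) (𝓡 (m + 1)) e (f x)).comp
          ((mfderiv (𝓡 (m + 1)) (𝓡 (m + 1)) f x).comp
            (mfderiv (𝓡 (m + 1)) (𝓡 (m + 1)) (Subtype.val : U → X) ⟨x, hxU⟩)) := by
      have h4 := mfderiv_comp (I := 𝓡 (m + 1)) (I' := 𝓡 (m + 1)) (I'' := 𝓡 (m + 1))
        (⟨x, hxU⟩ : U) (g := (e : Y → E (m + 1))) (f := fun u : U => f u)
        (heLD _ (hU ⟨x, hxU⟩)).mdifferentiableAt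
        ((hf.contMDiffAt.comp _ contMDiff_subtype_val.contMDiffAt).mdifferentiableAt
          (by simp : (∞ : WithTop ℕ∞) ≠ 0))
      have h5 := mfderiv_comp (I := 𝓡 (m + 1)) (I' := 𝓡 (m + 1)) (I'' := 𝓡 (m + 1))
        (⟨x, hxU⟩ : U) (g := f) (f := (Subtype.val : U → X))
        (hf.mdifferentiableAt (by simp)) (LD_val (n := m + 1) U ⟨x, hxU⟩).mdifferentiableAt
      have h6 : mfderiv (𝓡 (m + 1)) (𝓡 (m + 1)) (fun u : U => f u) (⟨x, hxU⟩ : U) =
          (mfderiv (𝓡 (m + 1)) (𝓡 (m + 1)) f x).comp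
            (mfderiv (𝓡 (m + 1)) (𝓡 (m + 1)) (Subtype.val : U → X) ⟨x, hxU⟩) := h5
      rw [← h6]
      exact h4
    show Surjective (mfderiv (𝓡 (m + 1)) (𝓡 m) (fun u : U => P (e (f u))) ⟨x, hxU⟩)
    rw [h1, h3]
    intro y
    obtain ⟨w, ⟨v, hv⟩, hw⟩ := hP0 y
    refine ⟨V.symm v, ?_⟩
    have e1 : mfderiv (𝓡 (m + 1)) (𝓡 (m + 1)) (Subtype.val : U → X) ⟨x, hxU⟩ (V.symm v) = v := by
      rw [← hveq]
      exact V.apply_symm_apply v
    have e2 : ∀ q : E (m + 1), A.symm (mfderiv (𝓡 (m + 1)) (𝓡 (m + 1)) e (f x) q) = q := by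
      intro q
      rw [← heq]
      exact A.symm_apply_apply q
    show P0 (A.symm (mfderiv (𝓡 (m + 1)) (𝓡 (m + 1)) e (f x)
      (mfderiv (𝓡 (m + 1)) (𝓡 (m + 1)) f x
        (mfderiv (𝓡 (m + 1)) (𝓡 (m + 1)) (Subtype.val : U → X) ⟨x, hxU⟩ (V.symm v))))) = y
    rw [e1, e2]
    rw [← hw]
    exact congrArg P0 hv

/-- the data around a point -/
theorem exists_dat (f : X → Y) (hf : ContMDiff (𝓡 (m + 1)) (𝓡 (m + 1)) ∞ f) (hi : Injective f)
    (x : X) (hx : m ≤ Module.finrank ℝ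
      (LinearMap.range (mfderiv (𝓡 (m + 1)) (𝓡 (m + 1)) f x).toLinearMap))
    (W : Set X) (hW : W ∈ 𝓝 x) :
    ∃ D : Dat m f, ((D.A 0 : D.U) : X) = x ∧ (D.U : Set X) ⊆ W := by
  have : LocallyCompactSpace X := ChartedSpace.locallyCompactSpace (E (m + 1)) X
  set e := chartAt (E (m + 1)) (f x) with he
  have hs : W ∩ f ⁻¹' e.source ∈ 𝓝 x := Filter.inter_mem hW
    (hf.continuous.continuousAt.preimage_mem_nhds
      (e.open_source.mem_nhds (mem_chart_source (E (m + 1)) (f x))))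
  obtain ⟨t, ht, htc, hts⟩ := exists_mem_nhds_isClosed_subset hs
  let U : TopologicalSpace.Opens X := ⟨interior t, isOpen_interior⟩
  have hxU : x ∈ U := mem_interior_iff_mem_nhds.2 ht
  have hclo : closure (U : Set X) ⊆ t := closure_minimal interior_subset htc
  have hsrc : ∀ u : U, f u ∈ e.source := fun u => (hts (interior_subset u.2)).2
  have heLD : ∀ y ∈ e.source, LD (m + 1) (e : Y → E (m + 1)) y := fun y hy =>
    Pool.Agent.Y66.CM.LD_chart _ y hy
  have hsm : ContMDiff (𝓡 (m + 1)) (𝓡 (m + 1)) ∞ (fun u : U => e (f u)) := fun u =>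
    (heLD _ (hsrc u)).contMDiffAt.comp u (hf.contMDiffAt.comp u contMDiff_subtype_val.contMDiffAt)
  have hFi : Injective (fun u : U => e (f u)) := fun u v huv =>
    Subtype.ext (hi (e.injOn (hsrc u) (hsrc v) huv))
  obtain ⟨A, L, b, hA0, hNB⟩ := Pool.Agent.Y47.SH.nbox m U (fun u : U => e (f u)) hsm.continuous
    hFi ⟨x, hxU⟩ (coord_of_rank f hf x hx U hxU hsrc)
  obtain ⟨η, hη, hstep⟩ := Pool.Agent.Y522.hStep m U (fun u : U => e (f u)) A L b
    hsm.continuous hNB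
  refine ⟨{ U := U, y0 := f x, A := A, L := L, b := b, η := η,
            clo := fun z hz => (hts (hclo hz)).2, nb := hNB, pos := hη, step := hstep }, ?_, ?_⟩
  · show ((A 0 : U) : X) = x
    rw [hA0]
  · exact fun z hz => (hts (interior_subset hz)).1

/-- **Removal of the singular set of a smooth bijection of corank at most one.** -/
theorem removal (f : X → Y) (hf : ContMDiff (𝓡 (m + 1)) (𝓡 (m + 1)) ∞ f) (hb : Bijective f)
    (S : Set X) (hS : IsCompact S) (hSL : ∀ x, x ∉ S → LD (m + 1) f x)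
    (hr : ∀ x ∈ S, m ≤ Module.finrank ℝ
      (LinearMap.range (mfderiv (𝓡 (m + 1)) (𝓡 (m + 1)) f x).toLinearMap))
    (W : Set X) (hW : IsOpen W) (hSW : S ⊆ W) (O : Set (X × Y)) (hO : IsOpen O)
    (hfO : ∀ x, (x, f x) ∈ O) :
    ∃ f' : C(X, Y), (∀ x, (x, f' x) ∈ O) ∧ Bijective f' ∧ (∀ x, LD (m + 1) f' x) ∧
      (∀ x, x ∉ W → f' x = f x) ∧ HomRel O W f ⟨f, hf.continuous⟩ f' := by
  classical
  rcases S.eq_empty_or_nonempty with hE | ⟨x0, hx0⟩
  · exact ⟨⟨f, hf.continuous⟩, hfO, hb, fun x => hSL x (by rw [hE]; exact notMem_empty x),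
      fun x _ => rfl, HomRel.refl fun x => ⟨hfO x, fun _ => rfl⟩⟩
  obtain ⟨D0, -, -⟩ := exists_dat f hf hb.1 x0 (hr x0 hx0) W (hW.mem_nhds (hSW hx0))
  have : Nonempty (Dat m f) := ⟨D0⟩
  have hex : ∀ x, x ∈ S → ∃ D : Dat m f, ((D.A 0 : D.U) : X) = x ∧ (D.U : Set X) ⊆ W :=
    fun x hx => exists_dat f hf hb.1 x (hr x hx) W (hW.mem_nhds (hSW hx))
  choose! D hD0 hDW using hex
  have hbox : box m (1 / 4) (1 / 4) ∈ 𝓝 (0 : E (m + 1)) := by
    refine mem_of_superset ((Pool.Agent.Y870.SH.open_small_box (m := m) (1 / 4)).mem_nhds ?_) ?_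
    · constructor
      · rw [map_zero, norm_zero]; norm_num
      · show |(0 : ℝ)| < 1 / 4
        norm_num
    · exact fun z hz => ⟨hz.1.le, hz.2.le⟩
  have h0box : (0 : E (m + 1)) ∈ box m 1 1 := by
    constructor
    · rw [map_zero, norm_zero]; norm_num
    · show |(0 : ℝ)| ≤ 1
      norm_num
  have hcov : ∀ x ∈ S, (fun z => (((D x).A z : (D x).U) : X)) '' box m (1 / 4) (1 / 4) ∈ 𝓝 x := by
    intro x hx
    have h1 : LD (m + 1) (fun z => (((D x).A z : (D x).U) : X)) 0 :=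
      LD.comp_fun (LD_val _ _) ((D x).nb.ld 0 h0box)
    have h2 := h1.image_mem_nhds hbox
    rwa [hD0 x hx] at h2
  obtain ⟨t, htS, htc⟩ := hS.elim_nhds_subcover _ hcov
  set N := t.card with hN
  let D' : Fin N → Dat m f := fun i => D (t.equivFin.symm i : X)
  have hD'W : ∀ i, ((D' i).U : Set X) ⊆ W := fun i =>
    hDW _ (htS _ (t.equivFin.symm i).2)
  obtain ⟨O', hO'⟩ : ∃ O' : Set (X × Y), O' = O ∩ ⋂ i : Fin N,
      ({p : X × Y | p.1 ∉ closure ((D' i).U : Set X)} ∪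
        ({p : X × Y | f p.1 ∈ (chartAt (E (m + 1)) (D' i).y0).source ∧
          p.2 ∈ (chartAt (E (m + 1)) (D' i).y0).source} ∩
          (fun p : X × Y => ‖chartAt (E (m + 1)) (D' i).y0 p.2 -
            chartAt (E (m + 1)) (D' i).y0 (f p.1)‖) ⁻¹' Iio (D' i).η)) := ⟨_, rfl⟩
  have hO'o : IsOpen O' := by
    rw [hO']
    refine hO.inter (isOpen_iInter_of_finite fun i => ?_)
    refine (isClosed_closure.isOpen_compl.preimage continuous_fst).union ?_
    set e := chartAt (E (m + 1)) (D' i).y0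
    have ho : IsOpen {p : X × Y | f p.1 ∈ e.source ∧ p.2 ∈ e.source} :=
      (e.open_source.preimage (hf.continuous.comp continuous_fst)).inter
        (e.open_source.preimage continuous_snd)
    refine ContinuousOn.isOpen_inter_preimage ?_ ho isOpen_Iio
    have c1 : ContinuousOn (fun p : X × Y => e p.2)
        {p : X × Y | f p.1 ∈ e.source ∧ p.2 ∈ e.source} :=
      e.continuousOn.comp continuous_snd.continuousOn fun p hp => hp.2
    have c2 : ContinuousOn (fun p : X × Y => e (f p.1))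
        {p : X × Y | f p.1 ∈ e.source ∧ p.2 ∈ e.source} :=
      e.continuousOn.comp (hf.continuous.comp continuous_fst).continuousOn fun p hp => hp.1
    exact (c1.sub c2).norm
  have hfO' : ∀ x, (x, f x) ∈ O' := by
    intro x
    rw [hO']
    refine ⟨hfO x, mem_iInter.2 fun i => ?_⟩
    by_cases hx : x ∈ closure ((D' i).U : Set X)
    · refine Or.inr ⟨⟨(D' i).clo x hx, (D' i).clo x hx⟩, ?_⟩
      show ‖_ - _‖ < _
      rw [sub_self, norm_zero]
      exact (D' i).pos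
    · exact Or.inl hx
  have hOD : ∀ p ∈ O', ∀ j, p.1 ∈ closure ((D' j).U : Set X) →
      p.2 ∈ (chartAt (E (m + 1)) (D' j).y0).source ∧
      ‖chartAt (E (m + 1)) (D' j).y0 p.2 - chartAt (E (m + 1)) (D' j).y0 (f p.1)‖
        < (D' j).η := by
    intro p hp j hj
    rw [hO'] at hp
    rcases mem_iInter.1 hp.2 j with h | h
    · exact absurd hj h
    · exact ⟨h.1.2, h.2⟩
  have hind : ∀ k : ℕ, k ≤ N → ∃ G : X → Y, Inv m f D' O' k G ∧ (∀ x, x ∉ W → G x = f x) ∧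
      (∀ x, LD (m + 1) f x → LD (m + 1) G x) ∧
      ∃ hc : Continuous G, HomRel O' W f ⟨f, hf.continuous⟩ ⟨G, hc⟩ := by
    intro k
    induction k with
    | zero =>
      intro _
      refine ⟨f, ⟨hf, hb, hfO', ?_, ?_⟩, fun x _ => rfl, fun x hx => hx, hf.continuous,
        HomRel.refl fun x => ⟨hfO' x, fun _ => rfl⟩⟩
      · intro j z hz
        have h1 := Pool.Agent.Y870.SH.NBox_fderiv (D' j).nb hz
        rw [h1, sub_self, norm_zero]
        exact (D' j).pos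
      · intro i hi
        exact absurd hi (Nat.not_lt_zero _)
    | succ k ih =>
      intro hk
      obtain ⟨G, hG1, hG2, hG3, hc, hH⟩ := ih (by omega)
      obtain ⟨G', hG1', hG2', hG3', hG4'⟩ := step_c f D' O' hO'o hOD k (by omega) G hG1
      refine ⟨G', hG1', fun x hx => ?_, fun x hx => hG3' x (hG3 x hx), hG1'.sm.continuous,
        hH.trans (hG4' hc hG1'.sm.continuous W (hD'W _) hG2)⟩
      rw [hG2' x (fun h => hx (hD'W _ h)), hG2 x hx]
  obtain ⟨G, hG1, hG2, hG3, hc, hH⟩ := hind N le_rfl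
  refine ⟨⟨G, hc⟩, fun x => ?_, hG1.bij, fun x => ?_, hG2, ?_⟩
  · have := hG1.gr x
    rw [hO'] at this
    exact this.1
  · by_cases hx : x ∈ S
    · obtain ⟨y, hy, hxy⟩ := mem_iUnion₂.1 (htc hx)
      obtain ⟨z, hz, rfl⟩ := hxy
      have h1 := hG1.good (t.equivFin ⟨y, hy⟩) (t.equivFin ⟨y, hy⟩).2 z hz
      have h2 : D' (t.equivFin ⟨y, hy⟩) = D y := by
        show D (t.equivFin.symm (t.equivFin ⟨y, hy⟩) : X) = D y
        rw [Equiv.symm_apply_apply]
      rw [h2] at h1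
      exact h1
    · exact hG3 x (hSL x hx)
  · obtain ⟨H⟩ := hH
    refine ⟨⟨H.toHomotopy, fun t x => ?_⟩⟩
    have h1 := H.prop' t x
    refine ⟨?_, h1.2⟩
    have h3 : O' ⊆ O := fun p hp => (hO'.subset hp).1
    exact h3 h1.1

end Pool.Agent.V1127.Co
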