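import Pool.Agent.Y170.NA.One

/-!
# Homotopies inside a chart
-/

set_option autoImplicit false

open Set Filter Topology Metric Function
open scoped Manifold ContDiff

noncomputable section

namespace Pool.Agent.V1127.Co

open Pool.Agent.Y522 Pool.Agent.Y522.NA Pool.Agent.Y170.NA

/-- `g` and `h` are homotopic through maps whose graphs lie in `O` and which agree with `f` outside
`W` -/
def HomRel {X Y : Type} [TopologicalSpace X] [TopologicalSpace Y] (O : Set (X × Y)) (W : Set X)
    (f : X → Y) (g h : C(X, Y)) : Prop :=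
  ContinuousMap.HomotopicWith g h (fun k => ∀ x, (x, k x) ∈ O ∧ (x ∉ W → k x = f x))

theorem HomRel.refl {X Y : Type} [TopologicalSpace X] [TopologicalSpace Y] {O : Set (X × Y)}
    {W : Set X} {f : X → Y} {g : C(X, Y)} (h : ∀ x, (x, g x) ∈ O ∧ (x ∉ W → g x = f x)) :
    HomRel O W f g g := ⟨ContinuousMap.HomotopyWith.refl g h⟩

theorem HomRel.trans {X Y : Type} [TopologicalSpace X] [TopologicalSpace Y] {O : Set (X × Y)}
    {W : Set X} {f : X → Y} {g h k : C(X, Y)} (h1 : HomRel O W f g h) (h2 : HomRel O W f h k) :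
    HomRel O W f g k := by
  obtain ⟨H1⟩ := h1
  obtain ⟨H2⟩ := h2
  exact ⟨H1.trans H2⟩

variable {n : ℕ} {X Y : Type} [TopologicalSpace X] [TopologicalSpace Y]

theorem seg_hom (U : TopologicalSpace.Opens X) (e : OpenPartialHomeomorph Y (E n))
    (F' : U → E n) (hF' : Continuous F') (G : C(X, Y)) (hsrc : ∀ u : U, G u ∈ e.source) (K : Set U)
    (hK : IsClosed (Subtype.val '' K : Set X)) (hoff : ∀ u ∉ K, F' u = e (G u))
    (O : Set (X × Y)) (hGO : ∀ x, (x, G x) ∈ O)
    (hseg : ∀ u ∈ K, ∀ t ∈ Icc (0 : ℝ) 1, AffineMap.lineMap (e (G u)) (F' u) t ∈ e.target ∧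
      ((u : X), e.symm (AffineMap.lineMap (e (G u)) (F' u) t)) ∈ O)
    (G' : C(X, Y)) (hG' : ∀ x, G' x = glue U e F' G x) (W : Set X) (f : X → Y)
    (hUW : (U : Set X) ⊆ W) (hGf : ∀ x ∉ W, G x = f x) : HomRel O W f G G' := by
  let H : unitInterval × X → Y := fun p =>
    glue U e (fun u => AffineMap.lineMap (e (G u)) (F' u) (p.1 : ℝ)) G p.2
  have hin : ∀ (t : unitInterval) (u : U), H (t, u) =
      e.symm (AffineMap.lineMap (e (G u)) (F' u) (t : ℝ)) := fun t u => glue_in U e _ G u
  have hout : ∀ (t : unitInterval) (x : X), x ∉ U → H (t, x) = G x := fun t x hx =>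
    glue_out U e _ G hx
  have htgt : ∀ (t : unitInterval) (u : U),
      AffineMap.lineMap (e (G u)) (F' u) (t : ℝ) ∈ e.target := by
    intro t u
    by_cases hu : u ∈ K
    · exact (hseg u hu t t.2).1
    · rw [hoff u hu, AffineMap.lineMap_same]
      exact e.map_source (hsrc u)
  have hoffH : ∀ (t : unitInterval) (x : X), x ∉ Subtype.val '' K → H (t, x) = G x := by
    intro t x hx
    by_cases h : x ∈ U
    · have h1 : (⟨x, h⟩ : U) ∉ K := fun hk => hx ⟨⟨x, h⟩, hk, rfl⟩
      have h2 := hin t ⟨x, h⟩
      rw [hoff _ h1, AffineMap.lineMap_same] at h2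
      rw [show H (t, x) = H (t, ((⟨x, h⟩ : U) : X)) from rfl, h2]
      exact e.left_inv (hsrc ⟨x, h⟩)
    · exact hout t x h
  have hGc : Continuous fun u : U => e (G u) :=
    continuous_iff_continuousAt.2 fun u => ContinuousAt.comp (f := fun u : U => G u) (g := e)
      (x := u) (e.continuousAt (hsrc u)) (G.continuous.comp continuous_subtype_val).continuousAt
  have hc : Continuous H := by
    rw [continuous_iff_continuousAt]
    rintro ⟨t, x⟩
    by_cases hx : x ∈ U
    · have hemb : IsOpenEmbedding (Prod.map id (Subtype.val : U → X) :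
          unitInterval × U → unitInterval × X) :=
        IsOpenEmbedding.id.prodMap U.2.isOpenEmbedding_subtypeVal
      have h1 : ContinuousAt (H ∘ Prod.map id (Subtype.val : U → X)) (t, ⟨x, hx⟩) := by
        have h2 : (H ∘ Prod.map id (Subtype.val : U → X)) = fun p : unitInterval × U =>
            e.symm (AffineMap.lineMap (e (G p.2)) (F' p.2) (p.1 : ℝ)) := by
          funext p
          exact hin p.1 p.2
        rw [h2]
        have h3 : Continuous fun p : unitInterval × U =>
            (AffineMap.lineMap (e (G p.2)) (F' p.2) (p.1 : ℝ) : E n) := by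
          simp only [AffineMap.lineMap_apply, vsub_eq_sub, vadd_eq_add]
          exact ((continuous_subtype_val.comp continuous_fst).smul
            ((hF'.comp continuous_snd).sub (hGc.comp continuous_snd))).add
            (hGc.comp continuous_snd)
        exact ContinuousAt.comp (g := e.symm) (e.symm.continuousAt (htgt t ⟨x, hx⟩))
          h3.continuousAt
      exact (hemb.continuousAt_iff (x := (t, (⟨x, hx⟩ : U)))).1 h1
    · have hxK : x ∉ Subtype.val '' K := by
        rintro ⟨u, _, rfl⟩
        exact hx u.2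
      have h1 : ContinuousAt (fun p : unitInterval × X => G p.2) (t, x) :=
        (G.continuous.comp continuous_snd).continuousAt
      refine h1.congr ?_
      have h2 : ∀ᶠ p : unitInterval × X in 𝓝 (t, x), p.2 ∈ (Subtype.val '' K)ᶜ :=
        continuous_snd.continuousAt.eventually (hK.isOpen_compl.mem_nhds hxK)
      filter_upwards [h2] with p hp
      exact (hoffH p.1 p.2 hp).symm
  refine ⟨{ toFun := H, continuous_toFun := hc, map_zero_left := ?_, map_one_left := ?_,
            prop' := ?_ }⟩
  · intro x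
    by_cases h : x ∈ U
    · rw [show ((0 : unitInterval), x) = (0, ((⟨x, h⟩ : U) : X)) from rfl, hin]
      rw [show (((0 : unitInterval) : ℝ)) = 0 from rfl, AffineMap.lineMap_apply_zero]
      exact e.left_inv (hsrc ⟨x, h⟩)
    · exact hout 0 x h
  · intro x
    by_cases h : x ∈ U
    · rw [show ((1 : unitInterval), x) = (1, ((⟨x, h⟩ : U) : X)) from rfl, hin]
      rw [show (((1 : unitInterval) : ℝ)) = 1 from rfl, AffineMap.lineMap_apply_one]
      rw [hG' x]
      exact (glue_in U e F' G ⟨x, h⟩).symm
    · rw [hout 1 x h, hG' x, glue_out U e F' G h]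
  · intro t x
    constructor
    · show (x, H (t, x)) ∈ O
      by_cases h : x ∈ Subtype.val '' K
      · obtain ⟨u, hu, rfl⟩ := h
        rw [hin]
        exact (hseg u hu t t.2).2
      · rw [hoffH t x h]
        exact hGO x
    · intro hx
      show H (t, x) = f x
      rw [hout t x (fun h => hx (hUW h)), hGf x hx]

end Pool.Agent.V1127.Co
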